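import Pool.Agent.FTU.Stmts

/-!
# Row JMM of squad FTU: moments of the jets at one point of the axis
-/

set_option autoImplicit false

open MeasureTheory Complex ProbabilityTheory

namespace Pool.Agent.FTU.H52

open Pool.Agent.FTU
open Pool.Agent.Helper49_Pauli
open Pool.Agent.MBX
open Pool.Agent.Loc (γn PB)

/-- the order of a variable -/
def ord : Var → ℕ
  | Var.jet _ p q r => p + q + r
  | _ => 0

/-- the mean value of the jet `v` -/
noncomputable def bj {ι : Type} [Fintype ι] (S : Sys ι) (et : ℝ) (e : ι → ℝ) (z : ℝ) : Var → ℝ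
  | Var.jet c p q r => (∑ i, e i * S.jm i c p q r z) - idl et c p q r
  | _ => 0

theorem ja_eq {ι : Type} [Fintype ι] (S : Sys ι) (et : ℝ) (e y : ι → ℝ) (z : ℝ) (v : Var) :
    ja (S.jt et (fun i => y i + e i) z) v = |bj S et e z v + ∑ i, y i * S.jv i v z| := by
  cases v with
  | jet c p q r =>
    simp only [ja, bj, Sys.jt, Sys.jv]
    congr 1
    simp only [add_mul, Finset.sum_add_distrib]
    ring
  | eta => simp [ja, bj, Sys.jv]
  | z => simp [ja, bj, Sys.jv]
  | zb => simp [ja, bj, Sys.jv]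

theorem jm_sq {ι : Type} [Fintype ι] {S : Sys ι} {K ell : ℝ} (h : S.Good K ell) (i : ι)
    (c : Fin 3) (p q r : ℕ) (z : ℝ) : S.jm i c p q r z ^ 2 ≤ S.c i ^ 2 / S.w i := by
  have hb : ∀ {x : ℝ} (n : ℕ), |x| ≤ 1 → |x ^ n| ≤ 1 := fun n hx => by
    rw [abs_pow]; exact pow_le_one₀ (abs_nonneg _) hx
  have h1 : |S.jm i c p q r z| ≤ |S.c i| := by
    unfold Sys.jm
    rw [abs_mul, abs_mul, abs_mul, abs_mul, abs_mul]
    have e1 := h.e1 i c
    have k0 := hb p (h.k1 i 0)
    have k1 := hb q (h.k1 i 1)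
    have k2 := hb r (h.k1 i 2)
    have c1 := Real.abs_cos_le_one (S.k i 2 * z - S.t i + ((p + q + r : ℕ) : ℝ) * (Real.pi / 2))
    have s1 : |S.c i| * |S.e i c| ≤ |S.c i| := mul_le_of_le_one_right (abs_nonneg _) e1
    have s2 := (mul_le_of_le_one_right (by positivity) k0).trans s1
    have s3 := (mul_le_of_le_one_right (by positivity) k1).trans s2
    have s4 := (mul_le_of_le_one_right (by positivity) k2).trans s3
    exact (mul_le_of_le_one_right (by positivity) c1).trans s4
  have h2 : S.jm i c p q r z ^ 2 ≤ S.c i ^ 2 := sq_le_sq.2 h1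
  refine h2.trans ?_
  rw [le_div_iff₀ (h.w0 i)]
  exact mul_le_of_le_one_right (sq_nonneg _) (h.w1 i)

theorem jmm (gam : GamStmt) : JmmStmt := by
  intro m T
  refine ⟨T.sup ord, fun K => ?_⟩
  obtain ⟨C, hC, hG⟩ := gam m (T.card + 3) K
  refine ⟨C, hC, ?_⟩
  intro ι _ S ell et l cost e hS hB z hz a' b' hb' ha'
  have hK : 0 ≤ K := (abs_nonneg (b' 0)).trans (hb' 0)
  have hbj : ∀ v ∈ T, |bj S et e z v| ≤ K := by
    intro v hv
    cases v with
    | jet c p q r =>
      exact hB.2 c p q r (Finset.le_sup (f := ord) hv) z hz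
    | eta => simpa [bj] using hK
    | z => simpa [bj] using hK
    | zb => simpa [bj] using hK
  have hjv : ∀ v, ∑ i, S.jv i v z ^ 2 ≤ K := by
    intro v
    cases v with
    | jet c p q r =>
      exact (Finset.sum_le_sum fun i _ => jm_sq hS i c p q r z).trans hS.cw
    | eta => simpa [Sys.jv] using hK
    | z => simpa [Sys.jv] using hK
    | zb => simpa [Sys.jv] using hK
  let σ : Fin T.card ≃ T := T.equivFin.symm
  let A : Fin (T.card + 3) → ι → ℝ := Fin.append (fun k i => S.jv i (σ k) z) a'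
  let B : Fin (T.card + 3) → ℝ := Fin.append (fun k => bj S et e z (σ k)) b'
  have hfun : (fun y : ι → ℝ => (1 + (∑ v ∈ T, ja (S.jt et (fun i => y i + e i) z) v) +
      ∑ c, |b' c + ∑ i, y i * a' c i|) ^ m) =
      fun y : ι → ℝ => (1 + ∑ v, |B v + ∑ i, y i * A v i|) ^ m := by
    funext y
    congr 1
    rw [Fin.sum_univ_add]
    simp only [A, B, Fin.append_left, Fin.append_right]
    rw [add_assoc]
    congr 2
    simp only [ja_eq]
    rw [Equiv.sum_comp σ (fun v : T => |bj S et e z v + ∑ i, y i * S.jv i v z|)]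
    exact (Finset.sum_coe_sort T (fun v => |bj S et e z v + ∑ i, y i * S.jv i v z|)).symm
  have hBB : ∀ v, |B v| ≤ K := by
    intro v
    refine Fin.addCases (fun k => ?_) (fun k => ?_) v
    · simp only [B, Fin.append_left]
      exact hbj _ (σ k).2
    · simp only [B, Fin.append_right]
      exact hb' k
  have hAA : ∀ v, ∑ i, A v i ^ 2 ≤ K := by
    intro v
    refine Fin.addCases (fun k => ?_) (fun k => ?_) v
    · simp only [A, Fin.append_left]
      exact hjv _
    · simp only [A, Fin.append_right]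
      exact ha' k
  have := hG ι A B hBB hAA
  rw [hfun]
  exact this

end Pool.Agent.FTU.H52
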